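import Mathlib

/-!
# Entropy of a binary tree of nonnegative vectors

`tree_lower`: if the leaves of a binary tree of depth `L` carry nonnegative vectors of mass `M₀`
and sup norm at most `κ₀`, and at every inner node the two halves overlap little
(`∑ min ≤ δ * mass`), then the number of coordinates is at least
`M₀ / κ₀ * 2 ^ L * exp (-L (δ log (1/τ) + log (1/(1-τ))))`.
-/

namespace Pool.Agent.Lib.MP_716709_gt.Low

open Finset

private lemma gibbs_term {a b : ℝ} (ha : 0 ≤ a) (hb : 0 < b) :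
    a * Real.log b - a * Real.log a ≤ b - a := by
  rcases ha.eq_or_lt with h | h
  · rw [← h]; simp; exact hb.le
  · have h1 : Real.log (b / a) ≤ b / a - 1 := Real.log_le_sub_one_of_pos (div_pos hb h)
    rw [Real.log_div hb.ne' h.ne'] at h1
    have h2 := mul_le_mul_of_nonneg_left h1 h.le
    have h3 : a * (b / a - 1) = b - a := by field_simp
    rw [h3] at h2
    linarith

private lemma two_term_aux {x y τ : ℝ} (hx : 0 ≤ x) (hy : 0 ≤ y) (hτ0 : 0 < τ) (hτ1 : τ < 1) :
    (x + y) * Real.log (x + y) - x * Real.log x - y * Real.log y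
      ≤ y * Real.log (1 / τ) + x * Real.log (1 / (1 - τ)) := by
  have h1τ : 0 < 1 - τ := by linarith
  rcases (add_nonneg hx hy).eq_or_lt with h | h
  · have hx0 : x = 0 := by linarith
    have hy0 : y = 0 := by linarith
    subst hx0; subst hy0; simp
  · have g1 := gibbs_term hy (mul_pos h hτ0)
    have g2 := gibbs_term hx (mul_pos h h1τ)
    rw [Real.log_mul h.ne' hτ0.ne'] at g1
    rw [Real.log_mul h.ne' h1τ.ne'] at g2
    rw [one_div, one_div, Real.log_inv, Real.log_inv]
    nlinarith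

private lemma two_term {x y τ : ℝ} (hx : 0 ≤ x) (hy : 0 ≤ y) (hτ0 : 0 < τ) (hτ1 : τ < 1) :
    (x + y) * Real.log (x + y) - x * Real.log x - y * Real.log y
      ≤ min x y * Real.log (1 / τ) + (x + y) * Real.log (1 / (1 - τ)) := by
  have h1τ : 0 < 1 - τ := by linarith
  have hl : 0 ≤ Real.log (1 / (1 - τ)) := by
    apply Real.log_nonneg
    rw [le_div_iff₀ h1τ]; linarith
  rcases le_total x y with h | h
  · rw [min_eq_left h]
    have := two_term_aux hy hx hτ0 hτ1
    rw [add_comm y x] at this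
    nlinarith [mul_nonneg hx hl]
  · rw [min_eq_right h]
    have := two_term_aux hx hy hτ0 hτ1
    nlinarith [mul_nonneg hy hl]

private lemma ico_split (l p : ℕ) {f : ℕ → ℝ} :
    ∑ e ∈ Ico (p * 2 ^ (l + 1)) ((p + 1) * 2 ^ (l + 1)), f e =
      ∑ e ∈ Ico (2 * p * 2 ^ l) ((2 * p + 1) * 2 ^ l), f e +
      ∑ e ∈ Ico ((2 * p + 1) * 2 ^ l) ((2 * p + 2) * 2 ^ l), f e := by
  rw [Finset.sum_Ico_consecutive _ (Nat.mul_le_mul_right _ (by omega))
    (Nat.mul_le_mul_right _ (by omega))]
  congr 1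
  congr 1
  · rw [pow_succ]; ring
  · rw [pow_succ]; ring

theorem tree_lower {J : Type*} [Fintype J] (L : ℕ) (ν : ℕ → J → ℝ) (M₀ κ₀ δ τ : ℝ)
    (hν : ∀ e j, 0 ≤ ν e j) (hM : 0 < M₀) (hκ : 0 < κ₀)
    (hmass : ∀ e < 2 ^ L, ∑ j, ν e j = M₀) (hsup : ∀ e < 2 ^ L, ∀ j, ν e j ≤ κ₀)
    (hτ0 : 0 < τ) (hτ1 : τ < 1)
    (hover : ∀ l < L, ∀ p < 2 ^ (L - l - 1),
      ∑ j, min (∑ e ∈ Finset.Ico (2 * p * 2 ^ l) ((2 * p + 1) * 2 ^ l), ν e j)
        (∑ e ∈ Finset.Ico ((2 * p + 1) * 2 ^ l) ((2 * p + 2) * 2 ^ l), ν e j)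
          ≤ δ * 2 ^ (l + 1) * M₀) :
    M₀ / κ₀ * 2 ^ L * Real.exp (-(L * (δ * Real.log (1 / τ) + Real.log (1 / (1 - τ)))))
      ≤ Fintype.card J := by
  set c : ℝ := δ * Real.log (1 / τ) + Real.log (1 / (1 - τ)) with hc
  have h1τ : 0 < 1 - τ := by linarith
  have hlτ : 0 ≤ Real.log (1 / τ) := by
    apply Real.log_nonneg
    rw [le_div_iff₀ hτ0]; linarith
  -- block vectors
  let W : ℕ → ℕ → J → ℝ := fun l p j => ∑ e ∈ Ico (p * 2 ^ l) ((p + 1) * 2 ^ l), ν e j
  have hW0 : ∀ l p j, 0 ≤ W l p j := fun l p j => Finset.sum_nonneg (fun e _ => hν e j)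
  have hWsplit : ∀ l p j, W (l + 1) p j = W l (2 * p) j + W l (2 * p + 1) j := by
    intro l p j
    show ∑ e ∈ Ico (p * 2 ^ (l + 1)) ((p + 1) * 2 ^ (l + 1)), ν e j = _
    rw [ico_split]
  have hWmass : ∀ l p, l ≤ L → p < 2 ^ (L - l) → ∑ j, W l p j = 2 ^ l * M₀ := by
    intro l p hl hp
    show ∑ j, ∑ e ∈ Ico (p * 2 ^ l) ((p + 1) * 2 ^ l), ν e j = _
    rw [Finset.sum_comm]
    have : ∀ e ∈ Ico (p * 2 ^ l) ((p + 1) * 2 ^ l), ∑ j, ν e j = M₀ := by
      intro e he
      apply hmass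
      rw [Finset.mem_Ico] at he
      calc e < (p + 1) * 2 ^ l := he.2
        _ ≤ 2 ^ (L - l) * 2 ^ l := Nat.mul_le_mul_right _ hp
        _ = 2 ^ L := by rw [← pow_add]; congr 1; omega
    rw [Finset.sum_congr rfl this, Finset.sum_const, Nat.card_Ico]
    have h2 : (p + 1) * 2 ^ l - p * 2 ^ l = 2 ^ l := by
      rw [add_mul, one_mul, Nat.add_sub_cancel_left]
    rw [h2]; simp
  -- induction on the level
  have key : ∀ l, l ≤ L → ∀ p < 2 ^ (L - l),
      -(2 ^ l * M₀ * (Real.log κ₀ + l * c)) ≤ -∑ j, W l p j * Real.log (W l p j) := by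
    intro l
    induction l with
    | zero =>
      intro _ p hp
      have hp' : p < 2 ^ L := by simpa using hp
      have hWp : ∀ j, W 0 p j = ν p j := by
        intro j
        show ∑ e ∈ Ico (p * 2 ^ 0) ((p + 1) * 2 ^ 0), ν e j = _
        simp
      simp only [hWp]
      have h1 : ∑ j, ν p j * Real.log (ν p j) ≤ ∑ j, ν p j * Real.log κ₀ := by
        apply Finset.sum_le_sum
        intro j _
        rcases (hν p j).eq_or_lt with h | h
        · rw [← h]; simp
        · exact mul_le_mul_of_nonneg_left (Real.log_le_log h (hsup p hp' j)) h.le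
      rw [← Finset.sum_mul, hmass p hp'] at h1
      simp only [pow_zero, one_mul, Nat.cast_zero, zero_mul, add_zero]
      linarith
    | succ l ih =>
      intro hl p hp
      have hl' : l ≤ L := by omega
      have hpow : 2 ^ (L - l) = 2 * 2 ^ (L - (l + 1)) := by
        rw [← pow_succ']; congr 1; omega
      have hp1 : 2 * p < 2 ^ (L - l) := by omega
      have hp2 : 2 * p + 1 < 2 ^ (L - l) := by omega
      have i1 := ih hl' (2 * p) hp1
      have i2 := ih hl' (2 * p + 1) hp2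
      have ho := hover l (by omega) p (by
        have : L - l - 1 = L - (l + 1) := by omega
        rw [this]; exact hp)
      have hpt : ∑ j, (W (l + 1) p j * Real.log (W (l + 1) p j)
            - W l (2 * p) j * Real.log (W l (2 * p) j)
            - W l (2 * p + 1) j * Real.log (W l (2 * p + 1) j))
          ≤ ∑ j, (min (W l (2 * p) j) (W l (2 * p + 1) j) * Real.log (1 / τ)
            + W (l + 1) p j * Real.log (1 / (1 - τ))) := by
        apply Finset.sum_le_sum
        intro j _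
        rw [hWsplit]
        exact two_term (hW0 _ _ _) (hW0 _ _ _) hτ0 hτ1
      rw [Finset.sum_sub_distrib, Finset.sum_sub_distrib, Finset.sum_add_distrib,
        ← Finset.sum_mul, ← Finset.sum_mul, hWmass (l + 1) p hl hp] at hpt
      have ho' : ∑ j, min (W l (2 * p) j) (W l (2 * p + 1) j) ≤ δ * 2 ^ (l + 1) * M₀ := ho
      have ho2 := mul_le_mul_of_nonneg_right ho' hlτ
      have hcast : ((l + 1 : ℕ) : ℝ) = (l : ℝ) + 1 := by push_cast; ring
      rw [hcast]
      have e1 : (2 : ℝ) ^ (l + 1) = 2 * 2 ^ l := by rw [pow_succ]; ring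
      rw [e1] at hpt ho2 ⊢
      have e2 : 2 * 2 ^ l * M₀ * (Real.log κ₀ + (↑l + 1) * c)
          = 2 * (2 ^ l * M₀ * (Real.log κ₀ + l * c))
            + δ * (2 * 2 ^ l) * M₀ * Real.log (1 / τ)
            + 2 * 2 ^ l * M₀ * Real.log (1 / (1 - τ)) := by
        rw [hc]; ring
      rw [e2]
      linarith
  have top := key L le_rfl 0 (by simp)
  have hS := hWmass L 0 le_rfl (by simp)
  set w : J → ℝ := W L 0 with hw
  have hSpos : (0 : ℝ) < 2 ^ L * M₀ := by positivity
  -- J is nonempty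
  have hJ : (0 : ℝ) < Fintype.card J := by
    rcases isEmpty_or_nonempty J with h | h
    · rw [Finset.univ_eq_empty, Finset.sum_empty] at hS
      linarith
    · exact_mod_cast Fintype.card_pos
  set S : ℝ := 2 ^ L * M₀ with hSdef
  have hb : 0 < S / Fintype.card J := div_pos hSpos hJ
  have hgibbs : ∑ j, (w j * Real.log (S / Fintype.card J) - w j * Real.log (w j))
      ≤ ∑ j, (S / Fintype.card J - w j) := by
    apply Finset.sum_le_sum
    intro j _
    exact gibbs_term (hW0 L 0 j) hb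
  rw [Finset.sum_sub_distrib, Finset.sum_sub_distrib, ← Finset.sum_mul, hS, Finset.sum_const,
    Finset.card_univ, nsmul_eq_mul, mul_div_cancel₀ _ hJ.ne', sub_self] at hgibbs
  -- conclude
  have h1 : -(S * (Real.log κ₀ + L * c)) ≤ -(S * Real.log (S / Fintype.card J)) := by
    linarith
  have h2 : Real.log (S / Fintype.card J) ≤ Real.log κ₀ + L * c := by
    have : S * Real.log (S / Fintype.card J) ≤ S * (Real.log κ₀ + L * c) := by linarith
    exact le_of_mul_le_mul_left this hSpos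
  have h3 : S / Fintype.card J ≤ κ₀ * Real.exp (L * c) := by
    rw [← Real.log_le_log_iff hb (by positivity), Real.log_mul hκ.ne' (Real.exp_pos _).ne',
      Real.log_exp]
    exact h2
  rw [div_le_iff₀ hJ] at h3
  have h4 : M₀ / κ₀ * 2 ^ L * Real.exp (-(L * c)) = S / (κ₀ * Real.exp (L * c)) := by
    rw [hSdef, Real.exp_neg]
    field_simp
  rw [h4, div_le_iff₀ (by positivity)]
  linarith

end Pool.Agent.Lib.MP_716709_gt.Low
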