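import Pool.Agent.Lib.MP_716709_gt.Embed

set_option autoImplicit false

namespace Pool.Agent.Lib.MP_716709_gt.Low

open Finset Pool.Agent.Lib.MP_716709_gt

/-- overlap of the signed supports of two vectors, in terms of norms -/
theorem sum_min_pn {N : ℕ} (v w : Fin N → ℝ) :
    ∑ h : Fin N × Bool, min (pn h.2 (v h.1)) (pn h.2 (w h.1)) =
      (∑ j, |v j| + ∑ j, |w j| - ∑ j, |v j - w j|) / 2 := by
  rw [← sum_add_distrib, ← sum_sub_distrib, sum_div, Fintype.sum_prod_type]
  refine sum_congr rfl fun j _ => ?_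
  rw [← sum_pn (v j), ← sum_pn (w j), ← sum_pn_sub (v j) (w j), ← sum_add_distrib,
    ← sum_sub_distrib, sum_div]
  exact sum_congr rfl fun s _ => min_eq_half _ _

theorem pn_add_le (s : Bool) (a b : ℝ) : pn s (a + b) ≤ pn s a + pn s b := by
  unfold pn
  split_ifs
  · exact max_le (add_le_add (le_max_left _ _) (le_max_left _ _))
      (add_nonneg (le_max_right _ _) (le_max_right _ _))
  · refine max_le ?_ (add_nonneg (le_max_right _ _) (le_max_right _ _))
    rw [neg_add]
    exact add_le_add (le_max_left _ _) (le_max_left _ _)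

theorem pn_sum_le {ι : Type*} (s : Bool) (S : Finset ι) (v : ι → ℝ) :
    pn s (∑ i ∈ S, v i) ≤ ∑ i ∈ S, pn s (v i) := by
  classical
  induction S using Finset.induction_on with
  | empty => simp [pn]
  | insert a S ha ih =>
    rw [sum_insert ha, sum_insert ha]
    exact (pn_add_le s _ _).trans (by linarith)

theorem sum_pn_all {N : ℕ} (v : Fin N → ℝ) :
    ∑ h : Fin N × Bool, pn h.2 (v h.1) = ∑ j, |v j| := by
  rw [Fintype.sum_prod_type]
  exact sum_congr rfl fun j _ => sum_pn _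

/-- The four point inequality. -/
theorem four {N : ℕ} (a b w : Fin N → ℝ) (ε l : ℝ)
    (ha : ∑ j, |a j| ≤ (1 + ε) * l) (hb : ∑ j, |b j| ≤ (1 + ε) * l)
    (hw : ∑ j, |w j| ≤ (1 + ε) * l) (hw1 : l ≤ ∑ j, |w j|)
    (hab : 2 * l ≤ ∑ j, |a j + b j|) (habw : ∑ j, |a j + b j - w j| ≤ (1 + ε) * l)
    (haw : 2 * l ≤ ∑ j, |a j - w j|) :
    ∑ h : Fin N × Bool, min (pn h.2 (a h.1)) (pn h.2 (b h.1)) ≤ 7 / 2 * ε * l := by
  have h1 := sum_min_pn a w
  have h2 := sum_min_pn (fun j => a j + b j) w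
  have h3 : ∑ h : Fin N × Bool, min (pn h.2 (a h.1 + b h.1)) (pn h.2 (w h.1)) ≤
      ∑ h : Fin N × Bool, min (pn h.2 (a h.1)) (pn h.2 (w h.1)) +
      ∑ h : Fin N × Bool, min (pn h.2 (b h.1)) (pn h.2 (w h.1)) := by
    rw [← sum_add_distrib]
    refine sum_le_sum fun h _ => ?_
    have e1 := pn_add_le h.2 (a h.1) (b h.1)
    have e2 := pn_nonneg h.2 (a h.1)
    have e3 := pn_nonneg h.2 (b h.1)
    have e4 := pn_nonneg h.2 (w h.1)
    rcases le_total (pn h.2 (a h.1)) (pn h.2 (w h.1)) with c1 | c1 <;>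
      rcases le_total (pn h.2 (b h.1)) (pn h.2 (w h.1)) with c2 | c2
    · rw [min_eq_left c1, min_eq_left c2]
      exact (min_le_left _ _).trans e1
    · rw [min_eq_left c1, min_eq_right c2]
      exact (min_le_right _ _).trans (by linarith)
    · rw [min_eq_right c1, min_eq_left c2]
      exact (min_le_right _ _).trans (by linarith)
    · rw [min_eq_right c1, min_eq_right c2]
      exact (min_le_right _ _).trans (by linarith)
  have h4 : ∑ h : Fin N × Bool, min (pn h.2 (a h.1)) (pn h.2 (b h.1)) ≤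
      ∑ h : Fin N × Bool, min (pn h.2 (a h.1)) (pn h.2 (w h.1)) +
      (∑ h : Fin N × Bool, pn h.2 (b h.1) -
        ∑ h : Fin N × Bool, min (pn h.2 (b h.1)) (pn h.2 (w h.1))) := by
    rw [← sum_sub_distrib, ← sum_add_distrib]
    refine sum_le_sum fun h _ => ?_
    rcases le_total (pn h.2 (b h.1)) (pn h.2 (w h.1)) with c2 | c2
    · rw [min_eq_left c2]
      have : min (pn h.2 (a h.1)) (pn h.2 (b h.1)) ≤ min (pn h.2 (a h.1)) (pn h.2 (w h.1)) :=
        min_le_min le_rfl c2
      linarith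
    · rw [min_eq_right c2]
      rcases le_total (pn h.2 (a h.1)) (pn h.2 (w h.1)) with c1 | c1
      · rw [min_eq_left c1]
        have := min_le_left (pn h.2 (a h.1)) (pn h.2 (b h.1))
        linarith
      · rw [min_eq_right c1]
        have := min_le_right (pn h.2 (a h.1)) (pn h.2 (b h.1))
        linarith
  rw [sum_pn_all] at h4
  rw [h1] at h3 h4
  rw [h2] at h3
  linarith

end Pool.Agent.Lib.MP_716709_gt.Low
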