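import Pool.Agent.Lib.MP_716709_gt.Embed

/-!
# MP_716709_gt: explicit points for the entropy lower bound

Blocks `0, …, P - 1`, each with the pairs of `Fin m`.
-/

set_option autoImplicit false

namespace Pool.Agent.Lib.MP_716709_gt.Low

open Finset

/-- all pairs of the blocks before `x` -/
noncomputable def A (m P x : ℕ) : L1 :=
  vec (fun e : Fin P × Fin m × Fin m => if (e.1 : ℕ) < x then one e.2.1 e.2.2 else 0)

/-- the auxiliary points -/
noncomputable def Bp (m P l p : ℕ) : L1 :=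
  vec (fun e : Fin P × Fin m × Fin m => if (e.1 : ℕ) < 2 * p * 2 ^ l ∨
    ((2 * p + 1) * 2 ^ l ≤ (e.1 : ℕ) ∧ (e.1 : ℕ) < (2 * p + 2) * 2 ^ l)
      then one e.2.1 e.2.2 else 0)

/-- the gadget points -/
noncomputable def X (m P e : ℕ) (i : Fin m) : L1 :=
  vec (fun e' : Fin P × Fin m × Fin m => if (e'.1 : ℕ) < e then one e'.2.1 e'.2.2 else
    if (e'.1 : ℕ) = e then xi i e'.2.1 e'.2.2 else 0)

theorem dist_blocks {m P : ℕ} (p p' : ℕ → Prop) [DecidablePred p] [DecidablePred p'] (c d : ℕ)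
    (hd : d ≤ P) (hcd : c ≤ d) (h : ∀ b, ¬(p b ↔ p' b) ↔ (c ≤ b ∧ b < d)) :
    dist (vec (fun e : Fin P × Fin m × Fin m => if p (e.1 : ℕ) then one e.2.1 e.2.2 else 0))
      (vec (fun e : Fin P × Fin m × Fin m => if p' (e.1 : ℕ) then one e.2.1 e.2.2 else 0))
      = ((d : ℝ) - c) * (m * (m - 1) / 2) := by
  rw [dist_vec, Fintype.sum_prod_type]
  have h1 : ∀ b : Fin P, ∑ y : Fin m × Fin m,
      |(if p (b : ℕ) then one y.1 y.2 else 0) - (if p' (b : ℕ) then one y.1 y.2 else 0)|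
      = if c ≤ (b : ℕ) ∧ (b : ℕ) < d then (m : ℝ) * (m - 1) / 2 else 0 := by
    intro b
    rw [Fintype.sum_prod_type]
    by_cases hb : c ≤ (b : ℕ) ∧ (b : ℕ) < d
    · rw [if_pos hb, ← sum_abs_one]
      have hb' := (h b).2 hb
      refine sum_congr rfl fun j _ => sum_congr rfl fun k _ => ?_
      by_cases hp : p (b : ℕ)
      · have hp' : ¬ p' (b : ℕ) := fun h' => hb' ⟨fun _ => h', fun _ => hp⟩
        simp [hp, hp']
      · have hp' : p' (b : ℕ) := by
          by_contra h'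
          exact hb' ⟨fun h2 => absurd h2 hp, fun h2 => absurd h2 h'⟩
        simp [hp, hp']
    · rw [if_neg hb]
      have hb' : p (b : ℕ) ↔ p' (b : ℕ) := by
        by_contra h'
        exact hb ((h b).1 h')
      refine sum_eq_zero fun j _ => sum_eq_zero fun k _ => ?_
      by_cases hp : p (b : ℕ)
      · have hp' := hb'.1 hp
        simp [hp, hp']
      · have hp' : ¬ p' (b : ℕ) := fun h' => hp (hb'.2 h')
        simp [hp, hp']
  rw [sum_congr rfl fun b _ => h1 b,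
    Fin.sum_univ_eq_sum_range (fun b => if c ≤ b ∧ b < d then (m : ℝ) * (m - 1) / 2 else 0) P,
    ← sum_filter, sum_const]
  have h2 : (range P).filter (fun b => c ≤ b ∧ b < d) = Ico c d := by
    ext b
    simp only [mem_filter, mem_range, mem_Ico]
    constructor
    · exact fun h => h.2
    · exact fun h => ⟨by omega, h⟩
  rw [h2, Nat.card_Ico, nsmul_eq_mul, Nat.cast_sub hcd]

theorem dist_A_A {m P x y : ℕ} (hxy : x ≤ y) (hy : y ≤ P) :
    dist (A m P x) (A m P y) = ((y : ℝ) - x) * (m * (m - 1) / 2) :=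
  dist_blocks (fun b => b < x) (fun b => b < y) x y hy hxy (by intro b; omega)

theorem dist_A_Bp_left {m P l p : ℕ} (h : (2 * p + 2) * 2 ^ l ≤ P) :
    dist (A m P (2 * p * 2 ^ l)) (Bp m P l p) = 2 ^ l * (m * (m - 1) / 2) := by
  have e1 : (2 * p + 1) * 2 ^ l = 2 * p * 2 ^ l + 2 ^ l := by ring
  have e2 : (2 * p + 2) * 2 ^ l = 2 * p * 2 ^ l + 2 * 2 ^ l := by ring
  rw [A, Bp, dist_blocks (fun b => b < 2 * p * 2 ^ l)
    (fun b => b < 2 * p * 2 ^ l ∨ ((2 * p + 1) * 2 ^ l ≤ b ∧ b < (2 * p + 2) * 2 ^ l))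
    ((2 * p + 1) * 2 ^ l) ((2 * p + 2) * 2 ^ l) h (by omega) (by intro b; omega)]
  push_cast
  ring

theorem dist_A_Bp_right {m P l p : ℕ} (h : (2 * p + 2) * 2 ^ l ≤ P) :
    dist (A m P ((2 * p + 2) * 2 ^ l)) (Bp m P l p) = 2 ^ l * (m * (m - 1) / 2) := by
  have e1 : (2 * p + 1) * 2 ^ l = 2 * p * 2 ^ l + 2 ^ l := by ring
  have e2 : (2 * p + 2) * 2 ^ l = 2 * p * 2 ^ l + 2 * 2 ^ l := by ring
  rw [A, Bp, dist_blocks (fun b => b < (2 * p + 2) * 2 ^ l)
    (fun b => b < 2 * p * 2 ^ l ∨ ((2 * p + 1) * 2 ^ l ≤ b ∧ b < (2 * p + 2) * 2 ^ l))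
    (2 * p * 2 ^ l) ((2 * p + 1) * 2 ^ l) (by omega) (by omega) (by intro b; omega)]
  push_cast
  ring

theorem dist_A_Bp_mid {m P l p : ℕ} (h : (2 * p + 2) * 2 ^ l ≤ P) :
    dist (A m P ((2 * p + 1) * 2 ^ l)) (Bp m P l p) = 2 * 2 ^ l * (m * (m - 1) / 2) := by
  have e1 : (2 * p + 1) * 2 ^ l = 2 * p * 2 ^ l + 2 ^ l := by ring
  have e2 : (2 * p + 2) * 2 ^ l = 2 * p * 2 ^ l + 2 * 2 ^ l := by ring
  have e3 : 0 < 2 ^ l := by positivity
  rw [A, Bp, dist_blocks (fun b => b < (2 * p + 1) * 2 ^ l)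
    (fun b => b < 2 * p * 2 ^ l ∨ ((2 * p + 1) * 2 ^ l ≤ b ∧ b < (2 * p + 2) * 2 ^ l))
    (2 * p * 2 ^ l) ((2 * p + 2) * 2 ^ l) h (by omega) (by intro b; omega)]
  push_cast
  ring

/-- Two vectors which differ only in the block `e`. -/
theorem dist_one_block {m P e : ℕ} (he : e < P) (f g : Fin P × Fin m × Fin m → ℝ)
    (f' g' : Fin m → Fin m → ℝ) (h : ∀ b : Fin P, (b : ℕ) ≠ e → ∀ j k, f (b, j, k) = g (b, j, k))
    (hf : ∀ j k, f (⟨e, he⟩, j, k) = f' j k) (hg : ∀ j k, g (⟨e, he⟩, j, k) = g' j k) :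
    dist (vec f) (vec g) = ∑ j, ∑ k, |f' j k - g' j k| := by
  rw [dist_vec, Fintype.sum_prod_type, sum_eq_single ⟨e, he⟩]
  · rw [Fintype.sum_prod_type]
    exact sum_congr rfl fun j _ => sum_congr rfl fun k _ => by rw [hf, hg]
  · intro b _ hb
    have hb' : (b : ℕ) ≠ e := fun h' => hb (Fin.ext h')
    refine sum_eq_zero fun y _ => ?_
    rw [h b hb' y.1 y.2, sub_self, abs_zero]
  · intro h'
    exact absurd (mem_univ _) h'

theorem dist_X_A {m P e : ℕ} (he : e < P) (i : Fin m) :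
    dist (X m P e i) (A m P e) = (m : ℝ) - 1 := by
  rw [X, A, dist_one_block he _ _ (xi i) (fun _ _ => 0) ?_ ?_ ?_, ← sum_abs_xi i]
  · simp
  · intro b hb j k
    by_cases h1 : (b : ℕ) < e
    · simp [h1]
    · simp [h1, hb]
  · intro j k
    simp
  · intro j k
    simp

theorem dist_X_A_succ {m P e : ℕ} (he : e < P) (i : Fin m) :
    dist (X m P e i) (A m P (e + 1)) = ((m : ℝ) - 1) * (m - 2) / 2 := by
  rw [dist_comm, X, A, dist_one_block he _ _ one (xi i) ?_ ?_ ?_, ← sum_one_sub_xi i]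
  · intro b hb j k
    by_cases h1 : (b : ℕ) < e
    · have h2 : (b : ℕ) < e + 1 := by omega
      simp [h1, h2]
    · have h2 : ¬ (b : ℕ) < e + 1 := by omega
      simp [h1, h2, hb]
  · intro j k
    simp
  · intro j k
    simp

theorem dist_X_X {m P e : ℕ} (he : e < P) {i k : Fin m} (hik : i ≠ k) :
    dist (X m P e i) (X m P e k) = 2 * ((m : ℝ) - 2) := by
  rw [X, X, dist_one_block he _ _ (xi i) (xi k) ?_ ?_ ?_, ← sum_xi_sub_xi hik]
  · intro b hb j k
    by_cases h1 : (b : ℕ) < e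
    · simp [h1]
    · simp [h1, hb]
  · intro j k
    simp
  · intro j k
    simp

open Classical in
/-- the set of all points -/
noncomputable def pts (m L : ℕ) : Finset L1 :=
  (range (2 ^ L + 1)).image (A m (2 ^ L)) ∪
    ((range L).biUnion (fun l => (range (2 ^ (L - l - 1))).image (Bp m (2 ^ L) l)) ∪
      (range (2 ^ L) ×ˢ (univ : Finset (Fin m))).image (fun q => X m (2 ^ L) q.1 q.2))

theorem A_mem {m L x : ℕ} (hx : x ≤ 2 ^ L) : A m (2 ^ L) x ∈ pts m L := by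
  classical
  refine mem_union_left _ (mem_image_of_mem _ ?_)
  rw [mem_range]
  omega

theorem Bp_mem {m L l p : ℕ} (hl : l < L) (hp : p < 2 ^ (L - l - 1)) :
    Bp m (2 ^ L) l p ∈ pts m L := by
  classical
  refine mem_union_right _ (mem_union_left _ ?_)
  rw [mem_biUnion]
  exact ⟨l, mem_range.2 hl, mem_image_of_mem _ (mem_range.2 hp)⟩

theorem X_mem {m L e : ℕ} (he : e < 2 ^ L) (i : Fin m) : X m (2 ^ L) e i ∈ pts m L := by
  classical
  refine mem_union_right _ (mem_union_right _ ?_)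
  exact mem_image.2 ⟨(e, i), mem_product.2 ⟨mem_range.2 he, mem_univ _⟩, rfl⟩

theorem sum_two_pow (L : ℕ) : ∑ l ∈ range L, 2 ^ (L - l - 1) + 1 = 2 ^ L := by
  have h : ∑ l ∈ range L, 2 ^ (L - l - 1) = ∑ l ∈ range L, 2 ^ l := by
    rw [← sum_range_reflect]
    refine sum_congr rfl fun l hl => ?_
    rw [mem_range] at hl
    congr 1
    omega
  rw [h]
  clear h
  induction L with
  | zero => simp
  | succ L ih => rw [sum_range_succ, pow_succ]; omega

theorem card_pts (m L : ℕ) : (pts m L).card ≤ 2 ^ L * (m + 2) := by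
  classical
  have h1 : ((range (2 ^ L + 1)).image (A m (2 ^ L))).card ≤ 2 ^ L + 1 :=
    card_image_le.trans (by simp)
  have h2 : ((range L).biUnion (fun l => (range (2 ^ (L - l - 1))).image (Bp m (2 ^ L) l))).card
      ≤ ∑ l ∈ range L, 2 ^ (L - l - 1) := by
    refine card_biUnion_le.trans (sum_le_sum fun l _ => ?_)
    exact card_image_le.trans (by simp)
  have h3 : ((range (2 ^ L) ×ˢ (univ : Finset (Fin m))).image
      (fun q => X m (2 ^ L) q.1 q.2)).card ≤ 2 ^ L * m :=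
    card_image_le.trans (by simp)
  have h4 := sum_two_pow L
  have h5 := card_union_le ((range (2 ^ L + 1)).image (A m (2 ^ L)))
    ((range L).biUnion (fun l => (range (2 ^ (L - l - 1))).image (Bp m (2 ^ L) l)) ∪
      (range (2 ^ L) ×ˢ (univ : Finset (Fin m))).image (fun q => X m (2 ^ L) q.1 q.2))
  have h6 := card_union_le
    ((range L).biUnion (fun l => (range (2 ^ (L - l - 1))).image (Bp m (2 ^ L) l)))
    ((range (2 ^ L) ×ˢ (univ : Finset (Fin m))).image (fun q => X m (2 ^ L) q.1 q.2))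
  unfold pts
  rw [mul_add]
  omega

end Pool.Agent.Lib.MP_716709_gt.Low
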