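import Pool.Agent.Lib.MP_716709_gt.Low.Gadget
import Pool.Agent.Lib.MP_716709_gt.Low.Four
import Pool.Agent.Lib.MP_716709_gt.Low.Pts
import Pool.Agent.Lib.MP_716709_gt.Low.Entropy

set_option autoImplicit false

namespace Pool.Agent.Lib.MP_716709_gt.Low

open Finset Pool.Agent.Lib.MP_716709_gt

/-- lower bound for the explicit set, before the numerical simplification -/
theorem lower_pts {m L N : ℕ} (hm : 2 ≤ m) {ε : ℝ} (hε : 0 < ε) (hεm : 14 * ε * m ≤ 1)
    (h : Embeds (pts m L) (1 + ε) N) :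
    (m : ℝ) * (m - 1) / 16 * 2 ^ L * Real.exp (-(L * (11 / 2 * ε * Real.log (2 / ε) +
      Real.log (1 / (1 - ε / 2))))) ≤ N := by
  classical
  have hm' : (2 : ℝ) ≤ m := by exact_mod_cast hm
  have hε1 : ε < 1 := by nlinarith
  obtain ⟨f, s, hs, hf⟩ := h
  set P : ℕ := 2 ^ L with hP
  set F : L1 → Fin N → ℝ := fun p j => if h : p ∈ pts m L then f ⟨p, h⟩ j / s else 0 with hF
  have hd : ∀ p q (hp : p ∈ pts m L) (hq : q ∈ pts m L),
      ∑ j, |F p j - F q j| = dist (f ⟨p, hp⟩) (f ⟨q, hq⟩) / s := by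
    intro p q hp hq
    rw [PiLp.dist_eq_of_L1, sum_div]
    refine sum_congr rfl fun j _ => ?_
    rw [Real.dist_eq, hF]
    dsimp only
    rw [dif_pos hp, dif_pos hq, ← sub_div, abs_div, abs_of_pos hs]
  have hlo : ∀ p q, p ∈ pts m L → q ∈ pts m L → dist p q ≤ ∑ j, |F p j - F q j| := by
    intro p q hp hq
    rw [hd p q hp hq, le_div_iff₀ hs]
    have := (hf ⟨p, hp⟩ ⟨q, hq⟩).1
    rw [Subtype.dist_eq] at this
    linarith
  have hup : ∀ p q, p ∈ pts m L → q ∈ pts m L →
      ∑ j, |F p j - F q j| ≤ (1 + ε) * dist p q := by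
    intro p q hp hq
    rw [hd p q hp hq, div_le_iff₀ hs]
    have := (hf ⟨p, hp⟩ ⟨q, hq⟩).2
    rw [Subtype.dist_eq] at this
    linarith
  set q : ℝ := (m : ℝ) * (m - 1) / 2 with hq
  have hq0 : 0 < q := by rw [hq]; nlinarith
  set a : ℕ → Fin N → ℝ := fun x => F (A m P x) with ha
  -- norms along the path
  have hAA1 : ∀ x y, x ≤ y → y ≤ P → ((y : ℝ) - x) * q ≤ ∑ j, |a y j - a x j| := by
    intro x y hxy hy
    have := hlo (A m P y) (A m P x) (A_mem hy) (A_mem (hxy.trans hy))
    rwa [dist_comm, dist_A_A hxy hy] at this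
  have hAA2 : ∀ x y, x ≤ y → y ≤ P → ∑ j, |a y j - a x j| ≤ (1 + ε) * (((y : ℝ) - x) * q) := by
    intro x y hxy hy
    have := hup (A m P y) (A m P x) (A_mem hy) (A_mem (hxy.trans hy))
    rwa [dist_comm, dist_A_A hxy hy] at this
  set Z : ℕ → Fin N × Bool → ℝ := fun e h => pn h.2 (a (e + 1) h.1 - a e h.1) with hZ
  have hsub : ∀ u v w : Fin N → ℝ,
      ∑ h : Fin N × Bool, |pn h.2 (u h.1 - w h.1) - pn h.2 (v h.1 - w h.1)| =
        ∑ j, |u j - v j| := by
    intro u v w
    rw [Fintype.sum_prod_type]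
    refine sum_congr rfl fun j _ => ?_
    refine (sum_pn_sub (u j - w j) (v j - w j)).trans ?_
    congr 1; ring
  have hsum : ∀ u w : Fin N → ℝ,
      ∑ h : Fin N × Bool, pn h.2 (u h.1 - w h.1) = ∑ j, |u j - w j| := by
    intro u w
    exact sum_pn_all (fun j => u j - w j)
  -- the gadgets
  have hgad : ∀ e : ℕ, ∃ G : Fin N × Bool → ℝ, e < P → (∀ h, 0 ≤ G h) ∧ (∀ h, G h ≤ Z e h) ∧
      (∀ h, G h ≤ 1 + ε * (m - 1)) ∧ q * (1 - 7 * ε * m) ≤ ∑ h, G h := by
    intro e
    by_cases he : e < P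
    · have hXm : ∀ i, X m P e i ∈ pts m L := fun i => X_mem he i
      have hAm : A m P e ∈ pts m L := A_mem he.le
      have hAm' : A m P (e + 1) ∈ pts m L := A_mem he
      obtain ⟨G, h1, h2, h3, h4⟩ := gadget hm ε hε.le
        (fun i (h : Fin N × Bool) => pn h.2 (F (X m P e i) h.1 - a e h.1)) (Z e)
        (fun _ _ => pn_nonneg _ _) (fun _ => pn_nonneg _ _)
        (fun i => by
          rw [hsum]
          have := hlo _ _ (hXm i) hAm
          rwa [dist_X_A he] at this)
        (fun i => by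
          rw [hsum]
          have := hup _ _ (hXm i) hAm
          rwa [dist_X_A he] at this)
        (fun i k hik => by
          rw [hsub (F (X m P e i)) (F (X m P e k)) (a e)]
          have := hlo _ _ (hXm i) (hXm k)
          rwa [dist_X_X he hik] at this)
        (fun i k hik => by
          rw [hsub (F (X m P e i)) (F (X m P e k)) (a e)]
          have := hup _ _ (hXm i) (hXm k)
          rwa [dist_X_X he hik] at this)
        (by
          rw [hZ]
          dsimp only
          rw [hsum]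
          have := hAA1 e (e + 1) (by omega) he
          push_cast at this
          have e1 : ((e : ℝ) + 1 - e) * q = m * (m - 1) / 2 := by rw [hq]; ring
          rwa [e1] at this)
        (fun i => by
          rw [hZ]
          dsimp only
          rw [hsub (a (e + 1)) (F (X m P e i)) (a e)]
          have := hup _ _ hAm' (hXm i)
          rwa [dist_comm, dist_X_A_succ he] at this)
      exact ⟨G, fun _ => ⟨h1, h2, h3, h4⟩⟩
    · exact ⟨fun _ => 0, fun h => absurd h he⟩
  choose G hG using hgad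
  have hGq : ∀ e, e < P → q / 2 ≤ ∑ h, G e h := by
    intro e he
    refine le_trans ?_ (hG e he).2.2.2
    have : 1 / 2 ≤ 1 - 7 * ε * m := by linarith
    nlinarith
  -- the normalised functions
  set ν : ℕ → Fin N × Bool → ℝ := fun e h =>
    if e < P then (q / 2) / (∑ h', G e h') * G e h else 0 with hν
  have hν0 : ∀ e h, 0 ≤ ν e h := by
    intro e h
    rw [hν]; dsimp only
    split_ifs with he
    · have h1 := hGq e he
      have h2 := (hG e he).1 h
      have : 0 < ∑ h', G e h' := by linarith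
      positivity
    · exact le_rfl
  have hνG : ∀ e, e < P → ∀ h, ν e h ≤ G e h := by
    intro e he h
    rw [hν]; dsimp only
    rw [if_pos he]
    have h1 := hGq e he
    have h2 := (hG e he).1 h
    have h3 : 0 < ∑ h', G e h' := by linarith
    have h4 : (q / 2) / (∑ h', G e h') ≤ 1 := by
      rw [div_le_one h3]; exact h1
    nlinarith
  have hνmass : ∀ e < P, ∑ h, ν e h = q / 2 := by
    intro e he
    have h1 := hGq e he
    have h3 : 0 < ∑ h', G e h' := by linarith
    have : ∀ h, ν e h = (q / 2) / (∑ h', G e h') * G e h := by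
      intro h; rw [hν]; dsimp only; rw [if_pos he]
    rw [sum_congr rfl fun h _ => this h, ← mul_sum]
    field_simp
  have hνsup : ∀ e < P, ∀ h, ν e h ≤ 2 := by
    intro e he h
    refine (hνG e he h).trans (((hG e he).2.2.1 h).trans ?_)
    nlinarith
  have hνZ : ∀ e < P, ∀ h, ν e h ≤ Z e h := fun e he h =>
    (hνG e he h).trans ((hG e he).2.1 h)
  -- the overlaps
  have hover : ∀ l < L, ∀ p < 2 ^ (L - l - 1),
      ∑ j, min (∑ e ∈ Finset.Ico (2 * p * 2 ^ l) ((2 * p + 1) * 2 ^ l), ν e j)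
        (∑ e ∈ Finset.Ico ((2 * p + 1) * 2 ^ l) ((2 * p + 2) * 2 ^ l), ν e j) ≤
        11 / 2 * ε * 2 ^ (l + 1) * (q / 2) := by
    intro l hl p hp
    have hend : (2 * p + 2) * 2 ^ l ≤ P := by
      have h1 : (p + 1) * 2 ^ (l + 1) ≤ 2 ^ (L - l - 1) * 2 ^ (l + 1) :=
        Nat.mul_le_mul_right _ hp
      rw [← pow_add] at h1
      have h2 : L - l - 1 + (l + 1) = L := by omega
      rw [h2] at h1
      calc (2 * p + 2) * 2 ^ l = (p + 1) * 2 ^ (l + 1) := by ring
        _ ≤ _ := h1
    set x₀ := 2 * p * 2 ^ l with hx₀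
    set x₁ := (2 * p + 1) * 2 ^ l with hx₁
    set x₂ := (2 * p + 2) * 2 ^ l with hx₂
    have h01 : x₁ = x₀ + 2 ^ l := by rw [hx₀, hx₁]; ring
    have h12 : x₂ = x₁ + 2 ^ l := by rw [hx₁, hx₂]; ring
    have hle01 : x₀ ≤ x₁ := by rw [h01]; exact Nat.le_add_right _ _
    have hle12 : x₁ ≤ x₂ := by rw [h12]; exact Nat.le_add_right _ _
    have hle1P : x₁ ≤ P := hle12.trans hend
    have hle0P : x₀ ≤ P := hle01.trans hle1P
    have h01R : (x₁ : ℝ) - x₀ = 2 ^ l := by rw [h01]; push_cast; ring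
    have h12R : (x₂ : ℝ) - x₁ = 2 ^ l := by rw [h12]; push_cast; ring
    have h02R : (x₂ : ℝ) - x₀ = 2 * 2 ^ l := by rw [h12, h01]; push_cast; ring
    -- the mass of the edges above the norm of the difference
    have hgen : ∀ x y, x ≤ y → y ≤ P → ∀ h : Fin N × Bool,
        pn h.2 (a y h.1 - a x h.1) ≤ ∑ e ∈ Ico x y, Z e h := by
      intro x y hxy hy h
      have : a y h.1 - a x h.1 = ∑ e ∈ Ico x y, (a (e + 1) h.1 - a e h.1) := by
        rw [sum_Ico_sub (fun e => a e h.1) hxy]
      rw [this]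
      exact pn_sum_le _ _ _
    have hmu : ∀ x y, x ≤ y → y ≤ P →
        ∑ h : Fin N × Bool, (∑ e ∈ Ico x y, Z e h - pn h.2 (a y h.1 - a x h.1)) ≤
          ε * (((y : ℝ) - x) * q) := by
      intro x y hxy hy
      rw [sum_sub_distrib, sum_comm, hsum]
      have h1 := hAA1 x y hxy hy
      have h2 : ∑ e ∈ Ico x y, ∑ h, Z e h ≤ ∑ _e ∈ Ico x y, (1 + ε) * q := by
        refine sum_le_sum fun e he => ?_
        rw [mem_Ico] at he
        rw [hZ]; dsimp only
        rw [hsum]
        have := hAA2 e (e + 1) (Nat.le_succ e) (lt_of_lt_of_le he.2 hy)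
        push_cast at this
        have e1 : ((e : ℝ) + 1 - e) * q = q := by ring
        rwa [e1] at this
      rw [sum_const, Nat.card_Ico, nsmul_eq_mul, Nat.cast_sub hxy] at h2
      linarith
    have hνle : ∀ x y, y ≤ P → ∀ h, ∑ e ∈ Ico x y, ν e h ≤ ∑ e ∈ Ico x y, Z e h := by
      intro x y hy h
      refine sum_le_sum fun e he => hνZ e ?_ h
      rw [mem_Ico] at he
      exact lt_of_lt_of_le he.2 hy
    have hBm : Bp m P l p ∈ pts m L := Bp_mem hl hp
    have hA0 : A m P x₀ ∈ pts m L := A_mem hle0P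
    have hA1 : A m P x₁ ∈ pts m L := A_mem hle1P
    have hA2 : A m P x₂ ∈ pts m L := A_mem hend
    have hfour := four (fun j => a x₁ j - a x₀ j) (fun j => a x₂ j - a x₁ j)
      (fun j => F (Bp m P l p) j - a x₀ j) ε (2 ^ l * q)
      (by
        have := hAA2 x₀ x₁ hle01 hle1P
        rwa [h01R] at this)
      (by
        have := hAA2 x₁ x₂ hle12 hend
        rwa [h12R] at this)
      (by
        have := hup _ _ hBm hA0
        rwa [dist_comm, dist_A_Bp_left hend] at this)
      (by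
        have := hlo _ _ hBm hA0
        rwa [dist_comm, dist_A_Bp_left hend] at this)
      (by
        have := hAA1 x₀ x₂ (hle01.trans hle12) hend
        rw [h02R] at this
        have e1 : ∀ j, a x₁ j - a x₀ j + (a x₂ j - a x₁ j) = a x₂ j - a x₀ j := fun j => by ring
        simp only [e1]
        linarith)
      (by
        have := hup _ _ hA2 hBm
        rw [dist_A_Bp_right hend] at this
        have e1 : ∀ j, a x₁ j - a x₀ j + (a x₂ j - a x₁ j) - (F (Bp m P l p) j - a x₀ j) =
          F (A m P x₂) j - F (Bp m P l p) j := fun j => by simp only [ha]; ring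
        simp only [e1]
        exact this)
      (by
        have := hlo _ _ hA1 hBm
        rw [dist_A_Bp_mid hend] at this
        have e1 : ∀ j, a x₁ j - a x₀ j - (F (Bp m P l p) j - a x₀ j) =
          F (A m P x₁) j - F (Bp m P l p) j := fun j => by simp only [ha]; ring
        simp only [e1]
        refine le_trans (le_of_eq ?_) this
        rw [hq]; ring)
    have hm1 := hmu x₀ x₁ hle01 hle1P
    have hm2 := hmu x₁ x₂ hle12 hend
    rw [h01R] at hm1
    rw [h12R] at hm2
    have hfin : ∑ j, min (∑ e ∈ Finset.Ico x₀ x₁, ν e j) (∑ e ∈ Finset.Ico x₁ x₂, ν e j) ≤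
        ∑ h : Fin N × Bool, min (pn h.2 (a x₁ h.1 - a x₀ h.1)) (pn h.2 (a x₂ h.1 - a x₁ h.1)) +
        (∑ h : Fin N × Bool, (∑ e ∈ Ico x₀ x₁, Z e h - pn h.2 (a x₁ h.1 - a x₀ h.1)) +
        ∑ h : Fin N × Bool, (∑ e ∈ Ico x₁ x₂, Z e h - pn h.2 (a x₂ h.1 - a x₁ h.1))) := by
      rw [← sum_add_distrib, ← sum_add_distrib]
      refine sum_le_sum fun h _ => ?_
      have e1 := hνle x₀ x₁ hle1P h
      have e2 := hνle x₁ x₂ hend h
      have e3 := hgen x₀ x₁ hle01 hle1P h
      have e4 := hgen x₁ x₂ hle12 hend h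
      rcases le_total (pn h.2 (a x₁ h.1 - a x₀ h.1)) (pn h.2 (a x₂ h.1 - a x₁ h.1)) with c | c
      · rw [min_eq_left c]
        exact (min_le_left _ _).trans (by linarith)
      · rw [min_eq_right c]
        exact (min_le_right _ _).trans (by linarith)
    have hpow : (2 : ℝ) ^ (l + 1) = 2 * 2 ^ l := by ring
    rw [hpow]
    linarith
  have key := tree_lower L ν (q / 2) 2 (11 / 2 * ε) (ε / 2) hν0 (by linarith) (by norm_num)
    hνmass hνsup (by linarith) (by linarith) hover
  have hc : (Fintype.card (Fin N × Bool) : ℝ) = 2 * N := by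
    rw [Fintype.card_prod, Fintype.card_fin, Fintype.card_bool]; push_cast; ring
  rw [hc] at key
  have e1 : 1 / (ε / 2) = 2 / ε := by field_simp
  rw [e1] at key
  have e2 : (m : ℝ) * (m - 1) / 16 * 2 ^ L * Real.exp (-(L * (11 / 2 * ε * Real.log (2 / ε) +
      Real.log (1 / (1 - ε / 2))))) = (q / 2 / 2 * 2 ^ L *
      Real.exp (-(L * (11 / 2 * ε * Real.log (2 / ε) + Real.log (1 / (1 - ε / 2)))))) / 2 := by
    rw [hq]; ring
  rw [e2]
  linarith

end Pool.Agent.Lib.MP_716709_gt.Low
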