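import Pool.Agent.Lib.MP_716709_gt.Low.Assembly

set_option autoImplicit false

namespace Pool.Agent.Lib.MP_716709_gt.Low

open Finset Pool.Agent.Lib.MP_716709_gt

theorem le_K {n : ℕ} {D : ℝ} {k : ℕ} (M : Finset L1) (hM : M.card ≤ n)
    (h : ∀ N, Embeds M D N → k ≤ N) : (k : ℕ∞) ≤ K n D := by
  have h1 : (k : ℕ∞) ≤ dimD M D := le_iInf₂ fun N hN => by exact_mod_cast h N hN
  exact h1.trans (le_iSup₂ (f := fun (M : Finset L1) (_ : M.card ≤ n) => dimD M D) M hM)

theorem one_le_K {n : ℕ} (hn : 2 ≤ n) (D : ℝ) : ((1 : ℕ) : ℕ∞) ≤ K n D := by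
  classical
  set a : L1 := toL1 (fun _ : Fin 1 => (0 : ℝ)) with ha
  set b : L1 := toL1 (fun _ : Fin 1 => (1 : ℝ)) with hb
  refine le_K {a, b} (card_le_two.trans hn) fun N hN => ?_
  by_contra hN0
  have hN1 : N = 0 := by omega
  subst hN1
  obtain ⟨f, s, hs, hf⟩ := hN
  have h1 := (hf ⟨a, by simp⟩ ⟨b, by simp⟩).1
  have h2 : dist (f ⟨a, by simp⟩) (f ⟨b, by simp⟩) = 0 := by
    rw [PiLp.dist_eq_of_L1]; simp
  rw [h2, Subtype.dist_eq] at h1
  have h3 : dist a b = 1 := by rw [ha, hb, dist_toL1]; simp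
  simp only [h3] at h1
  linarith

/-- the exponential loss in terms of `n` -/
theorem loss {L : ℕ} {n ε : ℝ} (hn : 1 ≤ n) (hL : (2 : ℝ) ^ L ≤ n) (hε : 0 < ε) (hε1 : ε ≤ 1) :
    n ^ (-(11 * (ε * Real.log (2 / ε)))) ≤ Real.exp (-(L * (11 / 2 * ε * Real.log (2 / ε) +
      Real.log (1 / (1 - ε / 2))))) := by
  have hn0 : 0 < n := by linarith
  have hlog2 : 0.6931471803 < Real.log 2 := Real.log_two_gt_d9
  set T : ℝ := ε * Real.log (2 / ε) with hT
  have hl2 : Real.log 2 ≤ Real.log (2 / ε) := by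
    apply Real.log_le_log (by norm_num)
    rw [le_div_iff₀ hε]; linarith
  have hT0 : 0.6931471803 * ε ≤ T := by rw [hT]; nlinarith
  have h1 : Real.log (1 / (1 - ε / 2)) ≤ ε := by
    have h2 : 0 < 1 / (1 - ε / 2) := by
      apply one_div_pos.2; linarith
    have h3 := Real.log_le_sub_one_of_pos h2
    refine h3.trans ?_
    rw [sub_le_iff_le_add, div_le_iff₀ (by linarith)]
    nlinarith
  have hLn : (L : ℝ) * Real.log 2 ≤ Real.log n := by
    rw [← Real.log_pow]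
    exact Real.log_le_log (by positivity) hL
  have hL0 : (0 : ℝ) ≤ L := Nat.cast_nonneg _
  have hlogn : 0 ≤ Real.log n := Real.log_nonneg hn
  rw [Real.rpow_def_of_pos hn0]
  apply Real.exp_le_exp.2
  have h4 : 11 / 2 * ε * Real.log (2 / ε) + Real.log (1 / (1 - ε / 2)) ≤ 7 * T := by
    have : 11 / 2 * ε * Real.log (2 / ε) = 11 / 2 * T := by rw [hT]; ring
    rw [this]; nlinarith
  have hTnn : 0 ≤ T := by nlinarith
  have h5 : (L : ℝ) * (11 / 2 * ε * Real.log (2 / ε) + Real.log (1 / (1 - ε / 2))) ≤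
      L * (7 * T) := mul_le_mul_of_nonneg_left h4 hL0
  have h6 : (L : ℝ) * (7 * T) ≤ Real.log n * (11 * T) := by
    have h7 : (L : ℝ) * 0.6931471803 ≤ Real.log n := by nlinarith
    have h8 : (L : ℝ) * 0.6931471803 * (11 * T) ≤ Real.log n * (11 * T) :=
      mul_le_mul_of_nonneg_right h7 (by positivity)
    have h9 : (0 : ℝ) ≤ L * T := mul_nonneg hL0 hTnn
    nlinarith
  have e : Real.log n * -(11 * T) = - (Real.log n * (11 * T)) := by ring
  rw [e]
  linarith

/-- the trivial range -/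
theorem trivial_range {ε : ℝ} (hε : 1 / 28 ≤ ε) (hε1 : ε ≤ 1) :
    1 ≤ 11 * (ε * Real.log (2 / ε)) := by
  have hlog2 : 0.6931471803 < Real.log 2 := Real.log_two_gt_d9
  have hε0 : 0 < ε := by linarith
  rcases le_total (1 / 7) ε with h | h
  · have hl2 : Real.log 2 ≤ Real.log (2 / ε) := by
      apply Real.log_le_log (by norm_num)
      rw [le_div_iff₀ hε0]; linarith
    nlinarith
  · have h14 : Real.log 14 ≤ Real.log (2 / ε) := by
      apply Real.log_le_log (by norm_num)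
      rw [le_div_iff₀ hε0]; linarith
    have h15 : 15 * Real.log 2 ≤ 4 * Real.log 14 := by
      have e1 : 15 * Real.log 2 = Real.log (2 ^ 15) := by rw [Real.log_pow]; norm_num
      have e2 : 4 * Real.log 14 = Real.log (14 ^ 4) := by rw [Real.log_pow]; norm_num
      rw [e1, e2]
      exact Real.log_le_log (by norm_num) (by norm_num)
    nlinarith

theorem K_ge_near : ∃ c : ℝ, 0 < c ∧ ∀ (n : ℕ) (ε : ℝ), 2 ≤ n → 0 < ε → ε ≤ 1 →
    ((⌈c * (min (n : ℝ) (1 / ε) * (n : ℝ) ^ (1 - 11 * (ε * Real.log (2 / ε))))⌉₊ : ℕ) : ℕ∞) ≤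
      K n (1 + ε) := by
  refine ⟨1 / 4000, by norm_num, fun n ε hn hε hε1 => ?_⟩
  have hnR : (2 : ℝ) ≤ n := by exact_mod_cast hn
  have hn0 : (0 : ℝ) < n := by linarith
  set T : ℝ := ε * Real.log (2 / ε) with hT
  have hl2 : 0 ≤ Real.log (2 / ε) := by
    apply Real.log_nonneg
    rw [le_div_iff₀ hε]; linarith
  have hT0 : 0 ≤ T := mul_nonneg hε.le hl2
  have hmin0 : 0 < min (n : ℝ) (1 / ε) := lt_min hn0 (by positivity)
  have hpow0 : 0 < (n : ℝ) ^ (1 - 11 * T) := Real.rpow_pos_of_pos hn0 _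
  have htriv : 1 / 4000 * (min (n : ℝ) (1 / ε) * (n : ℝ) ^ (1 - 11 * T)) ≤ 1 →
      ((⌈1 / 4000 * (min (n : ℝ) (1 / ε) * (n : ℝ) ^ (1 - 11 * T))⌉₊ : ℕ) : ℕ∞) ≤
        K n (1 + ε) := by
    intro h
    have h1 : ⌈1 / 4000 * (min (n : ℝ) (1 / ε) * (n : ℝ) ^ (1 - 11 * T))⌉₊ ≤ 1 :=
      Nat.ceil_le.2 (by simpa using h)
    exact le_trans (by exact_mod_cast h1) (one_le_K hn _)
  set u : ℝ := min (1 / (14 * ε)) ((n : ℝ) / 4) with hu
  rcases lt_or_ge u 2 with hu2 | hu2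
  · apply htriv
    rcases le_or_gt (1 / 28) ε with h28 | h28
    · have h1 := trivial_range h28 hε1
      have h2 : (n : ℝ) ^ (1 - 11 * T) ≤ 1 :=
        Real.rpow_le_one_of_one_le_of_nonpos (by linarith) (by rw [hT]; linarith)
      have h3 : min (n : ℝ) (1 / ε) ≤ 28 := by
        refine (min_le_right _ _).trans ?_
        rw [div_le_iff₀ hε]; linarith
      have h4 : min (n : ℝ) (1 / ε) * (n : ℝ) ^ (1 - 11 * T) ≤ 28 * 1 :=
        mul_le_mul h3 h2 hpow0.le (by norm_num)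
      linarith
    · have h1 : (2 : ℝ) < 1 / (14 * ε) := by
        rw [lt_div_iff₀ (by positivity)]; linarith
      have h2 : (n : ℝ) / 4 < 2 := by
        by_contra hcon
        push Not at hcon
        have : 2 ≤ u := le_min h1.le hcon
        linarith
      have h3 : (n : ℝ) ^ (1 - 11 * T) ≤ (n : ℝ) ^ (1 : ℝ) :=
        Real.rpow_le_rpow_of_exponent_le (by linarith) (by linarith)
      rw [Real.rpow_one] at h3
      have h4 : min (n : ℝ) (1 / ε) ≤ 8 := (min_le_left _ _).trans (by linarith)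
      have h5 : min (n : ℝ) (1 / ε) * (n : ℝ) ^ (1 - 11 * T) ≤ 8 * 8 :=
        mul_le_mul h4 (h3.trans (by linarith)) hpow0.le (by norm_num)
      linarith
  · have hu1 : u ≤ 1 / (14 * ε) := min_le_left _ _
    have hu4 : u ≤ (n : ℝ) / 4 := min_le_right _ _
    set m : ℕ := ⌊u⌋₊ with hm
    have hmu : (m : ℝ) ≤ u := Nat.floor_le (by linarith)
    have hmu' : u < m + 1 := Nat.lt_floor_add_one u
    have hm2 : 2 ≤ m := Nat.le_floor (by exact_mod_cast hu2)
    have hm2R : (2 : ℝ) ≤ m := by exact_mod_cast hm2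
    have hm0 : (0 : ℝ) < m := by linarith
    have hεm : 14 * ε * m ≤ 1 := by
      have := hmu.trans hu1
      rw [le_div_iff₀ (by positivity)] at this
      linarith
    have hmn : m + 2 ≤ n := by
      have : (m : ℝ) + 2 ≤ n := by linarith
      exact_mod_cast this
    set t : ℕ := n / (m + 2) with ht
    have ht0 : t ≠ 0 := by
      rw [ht]
      exact (Nat.div_pos hmn (by omega)).ne'
    set L : ℕ := Nat.log 2 t with hL
    have hL1 : 2 ^ L ≤ t := Nat.pow_log_le_self 2 ht0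
    have hL2 : t < 2 ^ (L + 1) := Nat.lt_pow_succ_log_self (by norm_num) t
    have hcard : 2 ^ L * (m + 2) ≤ n :=
      (Nat.mul_le_mul_right _ hL1).trans (Nat.div_mul_le_self n (m + 2))
    have hL3 : n < 2 ^ (L + 1) * (m + 2) := by
      exact Nat.lt_mul_of_div_lt (a := n) (b := 2 ^ (L + 1)) (c := m + 2) hL2 (by omega)
    have hL3R : (n : ℝ) < 2 * 2 ^ L * (m + 2) := by
      have h1 : (n : ℝ) < ((2 ^ (L + 1) * (m + 2) : ℕ) : ℝ) := by exact_mod_cast hL3
      push_cast at h1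
      have h2 : (2 : ℝ) ^ (L + 1) = 2 * 2 ^ L := by ring
      rwa [h2] at h1
    have hLn : (2 : ℝ) ^ L ≤ n := by
      have h1 : 2 ^ L ≤ n := le_trans (Nat.le_mul_of_pos_right _ (by omega)) hcard
      exact_mod_cast h1
    refine le_K (pts m L) ((card_pts m L).trans hcard) fun N hN => ?_
    have hlow := lower_pts hm2 hε hεm hN
    have hloss := loss (L := L) (n := n) (by linarith) hLn hε hε1
    rw [← hT] at hloss
    set R : ℝ := (n : ℝ) ^ (-(11 * T)) with hR
    have hR0 : 0 < R := Real.rpow_pos_of_pos hn0 _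
    have hRn : (n : ℝ) ^ (1 - 11 * T) = n * R := by
      rw [sub_eq_add_neg, Real.rpow_add hn0, Real.rpow_one]
    have hB : (0 : ℝ) < 2 ^ L := by positivity
    have h1 : (m : ℝ) ^ 2 / 32 * 2 ^ L * R ≤ N := by
      refine le_trans ?_ hlow
      have e1 : (m : ℝ) ^ 2 / 32 ≤ m * (m - 1) / 16 := by nlinarith
      have e2 : (m : ℝ) ^ 2 / 32 * 2 ^ L ≤ m * (m - 1) / 16 * 2 ^ L :=
        mul_le_mul_of_nonneg_right e1 hB.le
      exact mul_le_mul e2 hloss hR0.le (le_trans (by positivity) e2)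
    refine Nat.ceil_le.2 (le_trans ?_ h1)
    rw [hRn]
    have h2 : (n : ℝ) ≤ 4 * m * 2 ^ L := by nlinarith
    have h3 : min (n : ℝ) (1 / ε) ≤ 28 * m := by
      have h4 : u ≤ 2 * m := by linarith
      have h5 : min (n : ℝ) (1 / ε) / 14 ≤ u := by
        refine le_min ?_ ?_
        · have : 1 / (14 * ε) = (1 / ε) / 14 := by field_simp
          rw [this]
          exact div_le_div_of_nonneg_right (min_le_right _ _) (by norm_num)
        · have := min_le_left (n : ℝ) (1 / ε)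
          linarith
      linarith
    have h6 : min (n : ℝ) (1 / ε) * (n * R) ≤ 28 * m * (4 * m * 2 ^ L * R) := by
      apply mul_le_mul h3 (mul_le_mul_of_nonneg_right h2 hR0.le) (by positivity) (by positivity)
    have h7 : (0 : ℝ) < m ^ 2 * 2 ^ L * R := by positivity
    have e3 : 28 * (m : ℝ) * (4 * m * 2 ^ L * R) = 112 * (m ^ 2 * 2 ^ L * R) := by ring
    rw [e3] at h6
    have e4 : (m : ℝ) ^ 2 / 32 * 2 ^ L * R = (m ^ 2 * 2 ^ L * R) / 32 := by ring
    rw [e4]
    linarith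

end Pool.Agent.Lib.MP_716709_gt.Low
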