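import Pool.Agent.Lib.MP_716709_gt.Count

set_option autoImplicit false

namespace Pool.Agent.Lib.MP_716709_gt.Low

open Finset Pool.Agent.Lib.MP_716709_gt

/-- The clique gadget: most of the mass of `Z` lies below a bounded function. -/
theorem gadget {m : ℕ} (hm : 2 ≤ m) (ε : ℝ) (hε : 0 ≤ ε) {H : Type*} [Fintype H]
    (Y : Fin m → H → ℝ) (Z : H → ℝ) (hY0 : ∀ i h, 0 ≤ Y i h) (hZ0 : ∀ h, 0 ≤ Z h)
    (hY1 : ∀ i, (m : ℝ) - 1 ≤ ∑ h, Y i h)
    (hY2 : ∀ i, ∑ h, Y i h ≤ (1 + ε) * ((m : ℝ) - 1))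
    (hYY1 : ∀ i k, i ≠ k → 2 * ((m : ℝ) - 2) ≤ ∑ h, |Y i h - Y k h|)
    (hYY2 : ∀ i k, i ≠ k → ∑ h, |Y i h - Y k h| ≤ (1 + ε) * (2 * ((m : ℝ) - 2)))
    (hZ1 : (m : ℝ) * (m - 1) / 2 ≤ ∑ h, Z h)
    (hZY : ∀ i, ∑ h, |Z h - Y i h| ≤ (1 + ε) * (((m : ℝ) - 1) * (m - 2) / 2)) :
    ∃ G : H → ℝ, (∀ h, 0 ≤ G h) ∧ (∀ h, G h ≤ Z h) ∧ (∀ h, G h ≤ 1 + ε * (m - 1)) ∧
      (m : ℝ) * (m - 1) / 2 * (1 - 7 * ε * m) ≤ ∑ h, G h := by
  classical
  have hm' : (2 : ℝ) ≤ m := by exact_mod_cast hm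
  have : Nonempty (Fin m) := ⟨⟨0, by omega⟩⟩
  have hex := fun (h : H) =>
    half_line hm (fun i => Y i h) (fun i => hY0 i h) (Z h) (hZ0 h)
  choose I K hIK G hG0 hGZ hGmin hGA using hex
  set q : ℝ := (m : ℝ) * (m - 1) / 2 with hq
  have hq0 : 0 < q := by rw [hq]; nlinarith
  -- pair sums
  have hmin : ∀ i k, i ≠ k → ∑ h, min (Y i h) (Y k h) =
      (∑ h, Y i h + ∑ h, Y k h - ∑ h, |Y i h - Y k h|) / 2 := by
    intro i k _
    rw [← sum_add_distrib, ← sum_sub_distrib, sum_div]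
    exact sum_congr rfl fun h _ => min_eq_half _ _
  have hmin1 : ∀ i k, i ≠ k → 1 - ε * (m - 2) ≤ ∑ h, min (Y i h) (Y k h) := by
    intro i k hik
    rw [hmin i k hik]
    linarith [hY1 i, hY1 k, hYY2 i k hik]
  have hmin2 : ∀ i k, i ≠ k → ∑ h, min (Y i h) (Y k h) ≤ 1 + ε * (m - 1) := by
    intro i k hik
    rw [hmin i k hik]
    linarith [hY2 i, hY2 k, hYY1 i k hik]
  have hA : ∑ h, pairSum (fun i => Y i h) =
      (∑ i, ∑ k, if i = k then 0 else ∑ h, min (Y i h) (Y k h)) / 2 := by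
    unfold pairSum
    rw [← sum_div, sum_comm]
    congr 1
    refine sum_congr rfl fun i _ => ?_
    rw [sum_comm]
    refine sum_congr rfl fun k _ => ?_
    split_ifs with hik
    · simp
    · rfl
  have hA1 : q * (1 - ε * (m - 2)) ≤ ∑ h, pairSum (fun i => Y i h) := by
    rw [hA, hq, ← sum_offdiag_const]
    refine div_le_div_of_nonneg_right ?_ (by norm_num)
    refine sum_le_sum fun i _ => sum_le_sum fun k _ => ?_
    split_ifs with hik
    · exact le_rfl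
    · exact hmin1 i k hik
  have hA2 : ∑ h, pairSum (fun i => Y i h) ≤ q * (1 + ε * (m - 1)) := by
    rw [hA, hq, ← sum_offdiag_const]
    refine div_le_div_of_nonneg_right ?_ (by norm_num)
    refine sum_le_sum fun i _ => sum_le_sum fun k _ => ?_
    split_ifs with hik
    · exact le_rfl
    · exact hmin2 i k hik
  refine ⟨G, hG0, hGZ, fun h => ?_, ?_⟩
  · refine (hGmin h).trans (le_trans ?_ (hmin2 (I h) (K h) (hIK h)))
    exact single_le_sum (f := fun h' => min (Y (I h) h') (Y (K h) h'))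
      (fun h' _ => le_min (hY0 _ _) (hY0 _ _)) (mem_univ h)
  · have h1 : ∑ h : H, (pairSum (fun i => Y i h) - G h) ≤
        ∑ h : H, 3 * (pairSum (fun i => Y i h) + ∑ i, |Z h - Y i h| - ((m : ℝ) - 1) * Z h) :=
      sum_le_sum fun h _ => hGA h
    rw [sum_sub_distrib, ← mul_sum, sum_sub_distrib, sum_add_distrib, ← mul_sum,
      sum_comm (s := (univ : Finset H)) (t := (univ : Finset (Fin m)))
        (f := fun h i => |Z h - Y i h|)] at h1
    have h2 : ∑ i : Fin m, ∑ h : H, |Z h - Y i h| ≤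
        ∑ _i : Fin m, (1 + ε) * (((m : ℝ) - 1) * (m - 2) / 2) := sum_le_sum fun i _ => hZY i
    rw [sum_const, card_univ, Fintype.card_fin, nsmul_eq_mul] at h2
    have h5 : ((m : ℝ) - 1) * q ≤ ((m : ℝ) - 1) * ∑ h, Z h :=
      mul_le_mul_of_nonneg_left hZ1 (by linarith)
    have h6 : q * (1 + ε * (m - 1)) + m * ((1 + ε) * (((m : ℝ) - 1) * (m - 2) / 2)) -
        ((m : ℝ) - 1) * q = q * (ε * (2 * m - 3)) := by rw [hq]; ring
    have h7 : q * (1 - 7 * ε * m) ≤ q * (1 - ε * (m - 2)) - 3 * (q * (ε * (2 * m - 3))) := by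
      have : q * (1 - ε * (m - 2)) - 3 * (q * (ε * (2 * m - 3))) = q * (1 - 7 * ε * m) +
        11 * (q * ε) := by ring
      rw [this]
      have : 0 ≤ q * ε := mul_nonneg hq0.le hε
      linarith
    linarith

end Pool.Agent.Lib.MP_716709_gt.Low
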